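import Pool.Agent.H85.LSP.Nr

/-!
# LSP: the junction (JUN)
-/

set_option autoImplicit false

namespace Pool.LSP

open Polynomial Finset

theorem jun_geo {lam : ℝ} (hl : 1 < lam) : Summable (fun j : ℤ => lam ^ (-|j|)) := by
  have h0 : Summable (fun n : ℕ => (lam⁻¹) ^ n) :=
    summable_geometric_of_lt_one (by positivity) (inv_lt_one_of_one_lt₀ hl)
  apply Summable.of_nat_of_neg
  · refine h0.congr fun n => ?_
    rw [abs_of_nonneg (by positivity), zpow_neg, zpow_natCast, inv_pow]
  · refine h0.congr fun n => ?_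
    rw [abs_neg, abs_of_nonneg (by positivity), zpow_neg, zpow_natCast, inv_pow]

theorem jun_summable {P : ℤ[X]} {κ : ℤ → ℝ} {C lam : ℝ} (hK : Ker P κ C lam) (e : ℤ → ℤ)
    (L : ℝ) (he : ∀ j, |(e j : ℝ)| ≤ L) (n : ℤ) :
    Summable (fun j : ℤ => κ (n - j) * (e j : ℝ)) := by
  have h1 : Summable (fun j : ℤ => (C * L) * lam ^ (-|n - j|)) := by
    apply Summable.mul_left
    have h0 := (jun_geo hK.hl).comp_injective (i := fun j : ℤ => n - j)
      (fun a b h => by simpa using h)
    exact h0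
  apply Summable.of_norm_bounded h1
  intro j
  rw [Real.norm_eq_abs, abs_mul]
  have h2 := hK.dec (n - j)
  have h3 := he j
  have h4 : 0 ≤ L := le_trans (abs_nonneg _) h3
  have h5 : 0 < lam ^ (-|n - j|) := zpow_pos (by linarith [hK.hl]) _
  calc |κ (n - j)| * |(e j : ℝ)| ≤ (C * lam ^ (-|n - j|)) * L :=
        mul_le_mul h2 h3 (abs_nonneg _) (by have := hK.hC; positivity)
    _ = _ := by ring

theorem jun_cv_set {P : ℤ[X]} {κ : ℤ → ℝ} {C lam : ℝ} (hK : Ker P κ C lam) (e : ℤ → ℤ)
    (L : ℝ) (he : ∀ j, |(e j : ℝ)| ≤ L) (i a n : ℤ) :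
    cv κ (fun j => if j = i then a else e j) n =
      cv κ (fun j => if j = i then 0 else e j) n + (a : ℝ) * κ (n - i) := by
  unfold cv
  have hL : 0 ≤ L := le_trans (abs_nonneg _) (he 0)
  have h1 : Summable (fun j : ℤ => κ (n - j) * (((if j = i then 0 else e j) : ℤ) : ℝ)) := by
    apply jun_summable hK _ L
    intro j
    split_ifs
    · simpa using hL
    · exact he j
  have h2 : HasSum (fun j : ℤ => κ (n - j) * (((if j = i then a else 0) : ℤ) : ℝ))
      (κ (n - i) * (((if i = i then a else 0) : ℤ) : ℝ)) := by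
    apply hasSum_single i
    intro j hj
    simp [hj]
  have h3 := (h1.hasSum.add h2).tsum_eq
  have h4 : ∀ j : ℤ, κ (n - j) * (((if j = i then 0 else e j) : ℤ) : ℝ) +
      κ (n - j) * (((if j = i then a else 0) : ℤ) : ℝ) =
      κ (n - j) * (((if j = i then a else e j) : ℤ) : ℝ) := by
    intro j
    split_ifs <;> push_cast <;> ring
  rw [← tsum_congr h4, h3]
  simp [mul_comm]

theorem jun_min (κ : ℤ → ℝ) (F : Finset ℤ) : ∃ δ : ℝ, 0 < δ ∧ ∀ j ∈ F, κ j ≠ 0 → 2 * δ ≤ |κ j| := by
  induction F using Finset.induction_on with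
  | empty => exact ⟨1, one_pos, by simp⟩
  | insert a F ha ih =>
    obtain ⟨δ, h0, h1⟩ := ih
    by_cases hk : κ a = 0
    · refine ⟨δ, h0, ?_⟩
      intro j hj hne
      rcases Finset.mem_insert.1 hj with rfl | h
      · exact absurd hk hne
      · exact h1 j h hne
    · refine ⟨min δ (|κ a| / 2), lt_min h0 (by have := abs_pos.2 hk; linarith), ?_⟩
      intro j hj hne
      rcases Finset.mem_insert.1 hj with rfl | h
      · have := min_le_right δ (|κ j| / 2)
        linarith
      · have := min_le_left δ (|κ a| / 2)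
        have := h1 j h hne
        linarith

open Classical in
/-- the digits -/
noncomputable def jp (S : Finset ℤ) (q : ℕ) (g : S → Fin q) (j : ℤ) : ℤ :=
  if h : j ∈ S then ((g ⟨j, h⟩ : ℕ) : ℤ) else 0

theorem jp_update (S : Finset ℤ) (q : ℕ) (g : S → Fin q) (i : S) (a : Fin q) (j : ℤ) :
    jp S q (Function.update g i a) j = if j = i then ((a : ℕ) : ℤ) else jp S q g j := by
  classical
  unfold jp
  by_cases hj : j ∈ S
  · rw [dif_pos hj, dif_pos hj]
    by_cases h : j = i
    · rw [if_pos h]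
      have : (⟨j, hj⟩ : S) = i := Subtype.ext h
      rw [this, Function.update_self]
    · rw [if_neg h, Function.update_of_ne]
      intro h2
      exact h (congrArg Subtype.val h2)
  · rw [dif_neg hj, dif_neg hj]
    have h : j ≠ i := by
      rintro rfl
      exact hj i.2
    rw [if_neg h]

theorem t_jun (hCNT : CNTStmt) (hCN1 : CN1Stmt) (hCON : CONStmt) : JUNStmt := by
  classical
  intro P κ C lam hK L μ D hμ hD
  have hl := hK.hl
  have hC := hK.hC
  have hl0 : (0 : ℝ) < lam := by linarith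
  set d : ℕ := P.natDegree with hdd
  have hd1 : 1 ≤ d := hK.deg
  obtain ⟨y, hy1, hy2, hy3⟩ := hCON lam hl (8 * C + D * (L + 8) / μ) (d + L)
  set T : ℝ := ((2 * y + (d + L) + 1 : ℕ) : ℝ) with hT
  have hT1 : (1 : ℝ) ≤ T := by
    rw [hT]; exact_mod_cast Nat.le_add_left 1 _
  have hT6 : T ≤ T ^ 6 := by
    calc T = T ^ 1 := (pow_one T).symm
      _ ≤ T ^ 6 := pow_le_pow_right₀ hT1 (by norm_num)
  have hTval : T = 2 * y + (d + L) + 1 := by rw [hT]; push_cast; ring
  have hL0 : (0 : ℝ) ≤ L := Nat.cast_nonneg _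
  have hd0 : (1 : ℝ) ≤ d := by exact_mod_cast hd1
  have hy0 : (0 : ℝ) ≤ y := Nat.cast_nonneg _
  have hDLμ : 0 ≤ D * (L + 8) / μ := by positivity
  have hA : C * (16 * y + 8 * d) ≤ lam ^ y := by
    have h1 : C * (16 * y + 8 * d) ≤ 8 * C * T := by
      rw [hTval]; nlinarith
    have h2 : 8 * C * T ≤ (8 * C + D * (L + 8) / μ) * T ^ 6 := by
      apply mul_le_mul (by linarith) hT6 (by linarith) (by positivity)
    linarith
  have hB : D * (L + 16 * y + 8 * d) ≤ μ * lam ^ y := by
    have h1 : L + 16 * y + 8 * d ≤ (L + 8) * T := by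
      rw [hTval]
      nlinarith [mul_nonneg hL0 hL0, mul_nonneg hL0 hy0, mul_nonneg hL0 (by linarith : (0 : ℝ) ≤ d)]
    have h2 : D * ((L + 8) * T) = μ * ((D * (L + 8) / μ) * T) := by
      field_simp
    have h3 : (D * (L + 8) / μ) * T ≤ (8 * C + D * (L + 8) / μ) * T ^ 6 := by
      apply mul_le_mul (by linarith) hT6 (by linarith) (by positivity)
    calc D * (L + 16 * y + 8 * d) ≤ D * ((L + 8) * T) := mul_le_mul_of_nonneg_left h1 hD.le
      _ = μ * ((D * (L + 8) / μ) * T) := h2
      _ ≤ μ * lam ^ y := mul_le_mul_of_nonneg_left (by linarith) hμ.le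
  set m : ℕ := 2 * y + 2 * d with hm
  set q : ℕ := 16 * y + 8 * d with hq
  obtain ⟨δ, hδ0, hδ⟩ := jun_min κ (Finset.Icc (-((m : ℤ) + y)) ((m : ℤ) + y))
  refine ⟨δ, m, y, L + q, hδ0, Nat.le_add_right _ _, ?_, ?_⟩
  · rw [hq]; push_cast
    have : (L : ℝ) + (16 * y + 8 * d) = L + 16 * y + 8 * d := by ring
    rw [this]
    exact hB
  intro eL eR heL heR
  set S : Finset ℤ := Finset.Icc (0 : ℤ) (d - 1) ∪ Finset.Icc ((m : ℤ) - d) (m - 1) with hS
  have hSm : ∀ i ∈ S, 0 ≤ i ∧ i < m := by
    intro i hi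
    rw [hS, Finset.mem_union, Finset.mem_Icc, Finset.mem_Icc] at hi
    rcases hi with ⟨h1, h2⟩ | ⟨h1, h2⟩ <;> constructor <;> push_cast [hm] at * <;> omega
  -- the position
  have hpos : ∀ n : ℤ, -(y : ℤ) ≤ n → n < m + y → ∃ i ∈ S, κ (n - i) ≠ 0 ∧
      |κ (n - i)| ≤ C * (lam ^ y)⁻¹ := by
    intro n hn1 hn2
    have key : ∀ t : ℤ, (y : ℤ) ≤ |t| → |κ t| ≤ C * (lam ^ y)⁻¹ := by
      intro t ht
      refine (hK.dec t).trans (mul_le_mul_of_nonneg_left ?_ hC.le)
      rw [← zpow_natCast, ← zpow_neg]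
      exact zpow_le_zpow_right₀ hl.le (by omega)
    rcases le_or_gt ((y : ℤ) + d) n with h | h
    · obtain ⟨i, hi, hi2⟩ := hK.pos (n - d + 1) (by omega)
      refine ⟨d - 1 - i, ?_, ?_, ?_⟩
      · rw [hS, Finset.mem_union, Finset.mem_Icc]
        left; constructor <;> omega
      · have e : n - ((d : ℤ) - 1 - i) = n - d + 1 + i := by ring
        rw [e]
        exact hi2
      · apply key
        rw [abs_of_nonneg (by omega)]; omega
    · obtain ⟨i, hi, hi2⟩ := hK.neg (n - m + d) (by push_cast [hm]; omega)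
      refine ⟨m - d + i, ?_, ?_, ?_⟩
      · rw [hS, Finset.mem_union, Finset.mem_Icc, Finset.mem_Icc]
        right; constructor <;> omega
      · have e : n - ((m : ℤ) - d + i) = n - m + d - i := by ring
        rw [e]
        exact hi2
      · apply key
        rw [abs_of_nonpos (by push_cast [hm]; omega)]; push_cast [hm]; omega
  set Zf : Finset ℤ := Finset.Ico (-(y : ℤ)) (m + y) with hZf
  have hpos' : ∀ n : Zf, ∃ i : S, κ ((n : ℤ) - i) ≠ 0 ∧ |κ ((n : ℤ) - i)| ≤ C * (lam ^ y)⁻¹ := by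
    intro n
    have hn := Finset.mem_Ico.1 n.2
    obtain ⟨i, hi, h⟩ := hpos n hn.1 hn.2
    exact ⟨⟨i, hi⟩, h⟩
  choose pi hpi1 hpi2 using hpos'
  have hcardZ : Fintype.card Zf = m + 2 * y := by
    rw [Fintype.card_coe, hZf, Int.card_Ico]
    omega
  have hcnt : ∀ (n : Zf) (g : S → Fin q), (univ.filter (fun a : Fin q =>
      hd (cv κ (glue m eL (jp S q (Function.update g (pi n) a)) eR) n) < δ)).card ≤ 2 := by
    intro n g
    have hn := Finset.mem_Ico.1 n.2
    obtain ⟨i, hi⟩ : ∃ i : S, i = pi n := ⟨_, rfl⟩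
    have him := hSm i i.2
    have hκ1 := hpi1 n
    have hκ2 := hpi2 n
    rw [← hi] at hκ1 hκ2 ⊢
    -- the value
    have hglue : ∀ a : Fin q, glue m eL (jp S q (Function.update g i a)) eR =
        fun j => if j = (i : ℤ) then ((a : ℕ) : ℤ) else glue m eL (jp S q g) eR j := by
      intro a
      funext j
      unfold glue
      rw [jp_update]
      by_cases h : j = (i : ℤ)
      · rw [if_neg (by omega), if_pos (by omega), if_pos h, if_pos h]
      · rw [if_neg h, if_neg h]
    have hbd : ∀ j, |((glue m eL (jp S q g) eR j : ℤ) : ℝ)| ≤ L + q := by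
      intro j
      have : |glue m eL (jp S q g) eR j| ≤ (L : ℤ) + q := by
        unfold glue
        split_ifs with h1 h2
        · have := heL j; omega
        · unfold jp
          split_ifs with h
          · rw [abs_of_nonneg (by positivity)]
            have := (g ⟨j, h⟩).2
            omega
          · rw [abs_zero]; positivity
        · have := heR j; omega
      exact_mod_cast this
    have hval : ∀ a : Fin q, cv κ (glue m eL (jp S q (Function.update g i a)) eR) n =
        cv κ (fun j => if j = (i : ℤ) then 0 else glue m eL (jp S q g) eR j) n +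
          ((a : ℕ) : ℝ) * κ ((n : ℤ) - i) := by
      intro a
      rw [hglue a, jun_cv_set hK _ _ hbd]
      push_cast
      ring
    simp only [hval]
    have hfin := hCN1 q (cv κ (fun j => if j = (i : ℤ) then 0 else glue m eL (jp S q g) eR j) n)
      (κ ((n : ℤ) - i)) δ hκ1 ?_ ?_
    · refine le_trans (le_of_eq ?_) hfin
      congr
    · apply hδ _ _ hκ1
      rw [Finset.mem_Icc]
      omega
    · have h1 := hκ2
      have h2 : (q : ℝ) * C ≤ lam ^ y := by
        rw [hq]; push_cast; linarith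
      have h3 : 0 < lam ^ y := pow_pos hl0 y
      calc (q : ℝ) * |κ ((n : ℤ) - i)| ≤ q * (C * (lam ^ y)⁻¹) :=
            mul_le_mul_of_nonneg_left h1 (Nat.cast_nonneg _)
        _ = (q * C) * (lam ^ y)⁻¹ := by ring
        _ ≤ lam ^ y * (lam ^ y)⁻¹ := mul_le_mul_of_nonneg_right h2 (by positivity)
        _ = 1 := mul_inv_cancel₀ h3.ne'
  have hcnt' : ∀ (n : Zf) (g : S → Fin q), (@Finset.card (Fin q)
      (@Finset.filter (Fin q) (fun a => hd (cv κ (glue m eL (jp S q
        (@Function.update S (fun _ => Fin q) (fun a b => Classical.propDecidable (a = b)) g (pi n) a))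
          eR) n) < δ) (fun a => Classical.propDecidable _) univ)) ≤ 2 := by
    intro n g
    refine le_trans (le_of_eq (congrArg Finset.card ?_)) (hcnt n g)
    ext a
    simp only [Finset.mem_filter, Finset.mem_univ, true_and]
    have e : ∀ i1 i2 : DecidableEq S, @Function.update S (fun _ => Fin q) i1 g (pi n) a =
        @Function.update S (fun _ => Fin q) i2 g (pi n) a := fun i1 i2 => by
      rw [Subsingleton.elim i1 i2]
    exact Iff.of_eq (congrArg (fun f : S → Fin q => hd (cv κ (glue m eL (jp S q f) eR) n) < δ)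
      (e _ _))
  obtain ⟨g, hg⟩ := hCNT S Zf q 2
    (fun n g => hd (cv κ (glue m eL (jp S q g) eR) n) < δ) pi hcnt'
    (by rw [hcardZ, hm, hq]; omega)
  refine ⟨jp S q g, ?_, ?_⟩
  · intro j
    unfold jp
    split_ifs with h
    · rw [abs_of_nonneg (by positivity)]
      have := (g ⟨j, h⟩).2
      push_cast
      omega
    · rw [abs_zero]; positivity
  · intro n h1 h2
    have := hg ⟨n, Finset.mem_Ico.2 ⟨h1, h2⟩⟩
    exact not_lt.1 this

end Pool.LSP
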